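import Pool.Agent.H62P.Pkg
import Pool.Agent.H37F.Fan
import Pool.Agent.H41P.Cyc
import Pool.Agent.H41P.Bridge

/-!
# The last lines of the 2-connected step
-/

set_option autoImplicit false

namespace Pool.Agent.H20S

open List Pool.Agent.TF82 Pool.Agent.TFC Pool.Agent.TFB Pool.Agent.EG31 Pool.Agent.H18C
  Pool.Agent.H62P

universe u

set_option linter.unusedSectionVars false
set_option linter.unusedVariables false

variable {V : Type u} [DecidableEq V]

/-- pairwise near sets are singletons in a 2-connected graph -/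
theorem near_card_le_one {G : SimpleGraph V} {H S N : Finset V} (h2 : Conn2 G H)
    (hne : (H \ S).Nonempty) (hN : N ⊆ H) (hnear : ∀ x ∈ N, ∀ y ∈ N, Near G H S x y) :
    N.card ≤ 1 := by
  rw [Finset.card_le_one]
  intro x hx y hy
  by_contra hxy
  obtain ⟨v, hv⟩ := hne
  have hv' := Finset.mem_sdiff.1 hv
  obtain ⟨w, hw, hwv, s1, s2⟩ := hnear x hx y hy hxy v ⟨hv'.1, hv'.2, h2 v hv'.1⟩
  have key : ∀ u ∈ N, SepV G H w v u → u = w := by
    intro u hu hs
    rcases hs with hs | hs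
    · exact hs
    · by_contra huw
      exact hs (h2 w hw v (Finset.mem_erase.2 ⟨fun h => hwv h.symm, hv'.1⟩) u
        (Finset.mem_erase.2 ⟨huw, hN hu⟩))
  exact hxy ((key x hx s1).trans (key y hy s2).symm)

theorem mainP_finish [Fintype V] {G : SimpleGraph V} [DecidableRel G.Adj] {S J : Finset V}
    {b f : ℕ} (hK : Kb G Finset.univ S b) (h2 : Conn2 G Finset.univ)
    (hJ : J ⊆ Finset.univ \ S) (hind : G.IsIndepSet (J : Set V)) (hf : f ≤ J.card)
    (hs : ∑ v ∈ J, dU G Finset.univ v + 1 ≤ (Finset.univ : Finset V).card)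
    (hp1 : ∀ J' ⊆ J, J'.card = f → P1 G Finset.univ S b J')
    (hp2 : ∀ J' ⊆ J, J'.card = f → P2 G Finset.univ S b J')
    {c : List V} (hc : CycL G c) (hlen : 2 * (f + b) + 2 ≤ c.length) :
    ∃ I, Pkg G Finset.univ S b f I := by
  obtain ⟨J', hJ', hc'⟩ := Finset.exists_subset_card_eq hf
  refine ⟨J', ?_, ?_, hc', ?_, hp1 J' hJ' hc', hp2 J' hJ' hc', ?_⟩
  · intro v hv
    exact ⟨Finset.mem_univ _, (Finset.mem_sdiff.1 (hJ (hJ' hv))).2, h2 v (Finset.mem_univ _)⟩
  · exact fun a ha c hc => hind (hJ' ha) (hJ' hc)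
  · intro N hN hnear
    have h3 := near_card_le_one h2 hK.ne hN hnear
    have h4 := Finset.sum_le_sum_of_subset (f := fun v => dU G Finset.univ v) hJ'
    omega
  · refine ⟨Finset.univ, Finset.Subset.refl _, ?_, ?_⟩
    · have h3 : c.toFinset.card = c.length := List.toFinset_card_of_nodup hc.1
      have h4 := Finset.card_le_card (Finset.subset_univ c.toFinset)
      have := hc.2.1
      omega
    · intro x hx x' hx' hne
      obtain ⟨Q, q1, q2, q3, q4⟩ := H37F.long_arc h2 hc (fun z _ => Finset.mem_univ z) hx hx' hne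
      exact ⟨Q, q1, q2, q3, by omega⟩

/-- the 2-connected step from the cycle data of `H41P.Cyc` -/
theorem mainP_of_cyc [Fintype V] {G : SimpleGraph V} [DecidableRel G.Adj] {S : Finset V}
    {b f : ℕ} (hK : Kb G Finset.univ S b) (h2 : Conn2 G Finset.univ) {c : List V}
    (hc : CycL G c) (hlen : 2 * (f + b) + 2 ≤ c.length) {P : Finset (Finset V)}
    {I S' : Finset V → Finset V} {bb : Finset V → ℕ}
    (hD : H41P.CycData G Finset.univ S b c.toFinset P I S' bb) {p : V} (hp : p ∈ c)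
    (hJ : insert p (P.biUnion I) ⊆ Finset.univ \ S)
    (hind : G.IsIndepSet ((insert p (P.biUnion I) : Finset V) : Set V))
    (hf : f ≤ (insert p (P.biUnion I)).card)
    (hs : ∑ v ∈ insert p (P.biUnion I), dU G Finset.univ v + 1 ≤ (Finset.univ : Finset V).card) :
    ∃ I, Pkg G Finset.univ S b f I := by
  refine mainP_finish hK h2 hJ hind hf hs ?_ ?_ hc hlen
  · intro J' hJ' hc'
    refine H41P.p1_iff.2 (hD.p1 hJ' ?_)
    intro _ x hx hxp
    obtain ⟨Q, q1, q2, q3, q4⟩ := H37F.long_arc h2 hc (fun z _ => Finset.mem_univ z)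
      (Finset.mem_univ p) hx (Ne.symm hxp)
    exact ⟨Q, q1, q2, q3, by omega⟩
  · intro J' hJ' hc'
    refine H41P.p2_iff.2 (hD.p2 (List.mem_toFinset.2 hp) hJ' ?_)
    intro _ y hy hyp
    obtain ⟨Q, q1, q2, q3, q4⟩ := H37F.arc hc hp (List.mem_toFinset.1 hy) (Ne.symm hyp)
    exact ⟨Q, q1, q2, fun z hz => List.mem_toFinset.2 (q3 z hz), by omega⟩

end Pool.Agent.H20S
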