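import Pool.Agent.H20S.Sub
import Pool.Agent.H62P.Pkg

/-!
# Transfer of the package along an embedding, and `TransferP`
-/

set_option autoImplicit false

namespace Pool.Agent.H20S

open List Pool.Agent.TF82 Pool.Agent.TFC Pool.Agent.TFB Pool.Agent.EG31 Pool.Agent.H18C
  Pool.Agent.H62P

universe u

set_option linter.unusedSectionVars false
set_option linter.unusedVariables false

variable {V V' : Type u} [DecidableEq V] [DecidableEq V'] {G : SimpleGraph V} {f : V' ↪ V}

theorem pth_iff {A : Finset V'} {a b : V'} {n : ℕ} :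
    Pth (G.comap f) A a b n ↔ Pth G (A.map f) (f a) (f b) n := path_iff

theorem p1_map {A B I : Finset V'} {b : ℕ} (h : P1 (G.comap f) A B b I) :
    P1 G (A.map f) (B.map f) b (I.map f) := by
  intro M hM hne
  obtain ⟨M', hM', rfl⟩ := sub_map hM
  obtain ⟨v, hv, h1⟩ := h M' hM' (Finset.map_nonempty.1 hne)
  refine ⟨f v, mem_map_iff.2 hv, ?_⟩
  intro x hx hxv
  obtain ⟨x', hx', rfl⟩ := Finset.mem_map.1 hx
  have := pth_iff.1 (h1 x' hx' (fun he => hxv (by rw [he])))
  simpa using this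

theorem p2_map {A B I : Finset V'} {b : ℕ} (h : P2 (G.comap f) A B b I) :
    P2 G (A.map f) (B.map f) b (I.map f) := by
  intro M hM N hN hne hne' hMN
  obtain ⟨M', hM', rfl⟩ := sub_map hM
  obtain ⟨N', hN', rfl⟩ := sub_map hN
  obtain ⟨v, hv, v', hv', h1, h2⟩ := h M' hM' N' hN' (Finset.map_nonempty.1 hne)
    (Finset.map_nonempty.1 hne') (fun he => hMN ⟨by rw [he.1], by rw [Finset.card_map]; exact he.2⟩)
  refine ⟨f v, mem_map_iff.2 hv, f v', mem_map_iff.2 hv', fun he => h1 (f.injective he), ?_⟩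
  have := pth_iff.1 h2
  simpa using this

theorem minCov_iff {A B : Finset V'} {k : ℕ} :
    MinCov (G.comap f) A B k ↔ MinCov G (A.map f) (B.map f) k :=
  and_congr covW_iff (forall_congr' fun _ => imp_congr Iff.rfl (not_congr covW_iff))

theorem kb_iff [DecidableRel G.Adj] [DecidableRel (G.comap f).Adj] {A B : Finset V'} {b : ℕ} :
    Kb (G.comap f) A B b ↔ Kb G (A.map f) (B.map f) b := by
  constructor
  · rintro ⟨h1, h2, h3, h4, h5⟩
    refine ⟨map_subset_iff.2 h1, conn1_iff.1 h2, ?_, cw_iff.1 h4, ?_⟩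
    · rw [← sdiff_map]
      exact Finset.map_nonempty.2 h3
    · intro I hI hind v hv hg
      rw [← sdiff_map] at hI
      obtain ⟨J, hJ, rfl⟩ := sub_map hI
      obtain ⟨w, hw, rfl⟩ := Finset.mem_map.1 hv
      have := h5 J hJ (indep_iff.2 hind) w hw (good_iff.2 hg)
      rw [dU_map] at this
      simpa using this
  · rintro ⟨h1, h2, h3, h4, h5⟩
    refine ⟨map_subset_iff.1 h1, conn1_iff.2 h2, ?_, cw_iff.2 h4, ?_⟩
    · rw [← sdiff_map] at h3
      exact Finset.map_nonempty.1 h3
    · intro I hI hind v hv hg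
      have := h5 (I.map f) (by rw [← sdiff_map, map_subset_iff]; exact hI) (indep_iff.1 hind) (f v)
        (mem_map_iff.2 hv) (good_iff.1 hg)
      rw [dU_map]
      simpa using this

theorem pkg_map [DecidableRel G.Adj] [DecidableRel (G.comap f).Adj] {A B I : Finset V'}
    {b k : ℕ} (h : Pkg (G.comap f) A B b k I) : Pkg G (A.map f) (B.map f) b k (I.map f) := by
  obtain ⟨h1, h2, h3, h4, h5, h6, h7⟩ := h
  refine ⟨?_, indep_iff.1 h2, by simpa using h3, ?_, p1_map h5, p2_map h6, ?_⟩
  · intro v hv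
    obtain ⟨w, hw, rfl⟩ := Finset.mem_map.1 hv
    exact good_iff.1 (h1 w hw)
  · intro N hN hnear
    obtain ⟨M, hM, rfl⟩ := sub_map hN
    have := h4 M hM (fun x hx y hy => near_iff.2 (hnear _ (mem_map_iff.2 hx) _ (mem_map_iff.2 hy)))
    rw [sum_map] at this
    simpa using this
  · obtain ⟨D, hD, hc, hp⟩ := h7
    refine ⟨D.map f, map_subset_iff.2 hD, by simpa using hc, ?_⟩
    intro x hx x' hx' hne
    obtain ⟨y, hy, rfl⟩ := Finset.mem_map.1 hx
    obtain ⟨y', hy', rfl⟩ := Finset.mem_map.1 hx'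
    have := pth_iff.1 (hp y hy y' hy' (fun he => hne (by rw [he])))
    simpa using this

theorem univ_map (H : Finset V) :
    (Finset.univ : Finset {x // x ∈ H}).map ⟨Subtype.val, Subtype.val_injective⟩ = H := by
  ext x
  rw [Finset.mem_map]
  constructor
  · rintro ⟨y, _, rfl⟩
    exact y.2
  · intro hx
    exact ⟨⟨x, hx⟩, Finset.mem_univ _, rfl⟩

theorem subW_map {H S : Finset V} (hS : S ⊆ H) :
    (subW H S).map ⟨Subtype.val, Subtype.val_injective⟩ = S := by
  ext x
  rw [Finset.mem_map]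
  constructor
  · rintro ⟨y, hy, rfl⟩
    exact mem_subW.1 hy
  · intro hx
    exact ⟨⟨x, hS hx⟩, mem_subW.2 hx, rfl⟩

theorem transferP : TransferP.{u} := by
  intro V _ G _ H S b k hK hf h2
  have hu := univ_map H
  have hs := subW_map hK.sub
  refine ⟨?_, ?_, ?_, ?_⟩
  · refine (kb_iff (f := ⟨Subtype.val, Subtype.val_injective⟩)).2 ?_
    rw [hu, hs]
    exact hK
  · refine (minCov_iff (f := ⟨Subtype.val, Subtype.val_injective⟩)).2 ?_
    rw [hu, hs]
    exact hf
  · refine (conn2_iff (f := ⟨Subtype.val, Subtype.val_injective⟩)).2 ?_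
    rw [hu]
    exact h2
  · intro I' hI'
    have := pkg_map (f := ⟨Subtype.val, Subtype.val_injective⟩) hI'
    rw [hu, hs] at this
    exact this

end Pool.Agent.H20S
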