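import Pool.Agent.H18C.BPlus
import Pool.Agent.H72N.NearG

/-!
# Transfer along an embedding of vertex types

`f : V' ↪ V`, `G' = G.comap f`; a finset `A` of `V'` corresponds to `A.map f`.
-/

set_option autoImplicit false

namespace Pool.Agent.H20S

open List Pool.Agent.TF82 Pool.Agent.TFC Pool.Agent.TFB Pool.Agent.EG31 Pool.Agent.H18C
  Pool.Agent.H62P

universe u

set_option linter.unusedSectionVars false
set_option linter.unusedVariables false

variable {V V' : Type u} [DecidableEq V] [DecidableEq V'] {G : SimpleGraph V} {f : V' ↪ V}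

/-- a list inside the image of `A` comes from a list inside `A` -/
theorem lift_list {A : Finset V'} : ∀ {q : List V}, (∀ z ∈ q, z ∈ A.map f) →
    ∃ q' : List V', q'.map f = q ∧ ∀ z ∈ q', z ∈ A := by
  intro q
  induction q with
  | nil => intro _; exact ⟨[], rfl, by simp⟩
  | cons a q ih =>
    intro h
    obtain ⟨a', ha', rfl⟩ := Finset.mem_map.1 (h a (by simp))
    obtain ⟨q', rfl, hq'⟩ := ih (fun z hz => h z (by simp [hz]))
    refine ⟨a' :: q', rfl, ?_⟩
    intro z hz
    rcases List.mem_cons.1 hz with rfl | hz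
    · exact ha'
    · exact hq' z hz

theorem mem_map_iff {A : Finset V'} {x : V'} : f x ∈ A.map f ↔ x ∈ A :=
  Finset.mem_map' f

theorem mem_all {A : Finset V'} {q : List V'} :
    (∀ z ∈ q.map f, z ∈ A.map f) ↔ ∀ z ∈ q, z ∈ A := by
  constructor
  · intro h z hz
    exact mem_map_iff.1 (h _ (List.mem_map.2 ⟨z, hz, rfl⟩))
  · intro h z hz
    obtain ⟨y, hy, rfl⟩ := List.mem_map.1 hz
    exact mem_map_iff.2 (h y hy)

theorem adj_iff {x y : V'} : (G.comap f).Adj x y ↔ G.Adj (f x) (f y) := Iff.rfl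

theorem seg_iff {q : List V'} {a b : V'} :
    Seg (G.comap f) q a b ↔ Seg G (q.map f) (f a) (f b) := by
  constructor
  · rintro ⟨h1, h2, h3⟩
    refine ⟨?_, ?_, ?_⟩
    · rw [List.isChain_map]; exact h1
    · rw [List.head?_map, h2]; rfl
    · rw [List.getLast?_map, h3]; rfl
  · rintro ⟨h1, h2, h3⟩
    refine ⟨?_, ?_, ?_⟩
    · rw [List.isChain_map] at h1; exact h1
    · rw [List.head?_map] at h2
      obtain ⟨x, hx, hxa⟩ := Option.map_eq_some_iff.1 h2
      rw [hx, f.injective hxa]
    · rw [List.getLast?_map] at h3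
      obtain ⟨x, hx, hxa⟩ := Option.map_eq_some_iff.1 h3
      rw [hx, f.injective hxa]

theorem cycL_iff {l : List V'} : CycL (G.comap f) l ↔ CycL G (l.map f) := by
  constructor
  · rintro ⟨h1, h2, h3, h4⟩
    refine ⟨h1.map f.injective, by simpa using h2, ?_, ?_⟩
    · rw [List.isChain_map]
      exact h3
    · intro x hx y hy
      rw [List.getLast?_map] at hx
      rw [List.head?_map] at hy
      obtain ⟨x', hx', rfl⟩ := Option.mem_map.1 hx
      obtain ⟨y', hy', rfl⟩ := Option.mem_map.1 hy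
      exact h4 x' hx' y' hy'
  · rintro ⟨h1, h2, h3, h4⟩
    refine ⟨List.Nodup.of_map _ h1, by simpa using h2, ?_, ?_⟩
    · rw [List.isChain_map] at h3
      exact h3
    · intro x hx y hy
      refine h4 (f x) ?_ (f y) ?_
      · rw [List.getLast?_map]; exact Option.mem_map.2 ⟨x, hx, rfl⟩
      · rw [List.head?_map]; exact Option.mem_map.2 ⟨y, hy, rfl⟩

theorem fam_iff {L : List (List V')} : Fam (G.comap f) L ↔ Fam G (L.map (fun l => l.map f)) := by
  constructor
  · intro h
    refine ⟨?_, ?_⟩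
    · intro c hc
      obtain ⟨l, hl, rfl⟩ := List.mem_map.1 hc
      exact cycL_iff.1 (h.cyc l hl)
    · rw [← List.map_flatten]
      exact h.nod.map f.injective
  · intro h
    refine ⟨?_, ?_⟩
    · intro c hc
      exact cycL_iff.2 (h.cyc _ (List.mem_map.2 ⟨c, hc, rfl⟩))
    · have := h.nod
      rw [← List.map_flatten] at this
      exact List.Nodup.of_map _ this

theorem reach_map {A : Finset V'} {a b : V'} (h : Reach (G.comap f) A a b) :
    Reach G (A.map f) (f a) (f b) := by
  unfold Reach at *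
  induction h with
  | refl => exact Relation.ReflTransGen.refl
  | tail _ h ih =>
    exact Relation.ReflTransGen.tail ih ⟨mem_map_iff.2 h.1, mem_map_iff.2 h.2.1, h.2.2⟩

theorem reach_unmap {A : Finset V'} {a : V'} {y : V} (h : Reach G (A.map f) (f a) y) :
    ∀ b : V', f b = y → Reach (G.comap f) A a b := by
  unfold Reach at *
  induction h with
  | refl =>
    intro b hb
    rw [f.injective hb]
  | @tail c d hc h ih =>
    rintro b rfl
    obtain ⟨c', hc', rfl⟩ := Finset.mem_map.1 h.1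
    exact Relation.ReflTransGen.tail (ih c' rfl) ⟨hc', mem_map_iff.1 h.2.1, h.2.2⟩

theorem reach_iff {A : Finset V'} {a b : V'} :
    Reach (G.comap f) A a b ↔ Reach G (A.map f) (f a) (f b) :=
  ⟨reach_map, fun h => reach_unmap h b rfl⟩

theorem conn1_iff {A : Finset V'} : Conn1 (G.comap f) A ↔ Conn1 G (A.map f) := by
  constructor
  · intro h a ha b hb
    obtain ⟨a', ha', rfl⟩ := Finset.mem_map.1 ha
    obtain ⟨b', hb', rfl⟩ := Finset.mem_map.1 hb
    exact reach_iff.1 (h a' ha' b' hb')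
  · intro h a ha b hb
    exact reach_iff.2 (h _ (mem_map_iff.2 ha) _ (mem_map_iff.2 hb))

theorem erase_map (A : Finset V') (x : V') : (A.erase x).map f = (A.map f).erase (f x) :=
  Finset.map_erase f A x

theorem sdiff_map (A B : Finset V') : (A \ B).map f = A.map f \ B.map f := by
  ext y
  simp only [Finset.mem_map, Finset.mem_sdiff]
  constructor
  · rintro ⟨x, ⟨h1, h2⟩, rfl⟩
    exact ⟨⟨x, h1, rfl⟩, fun ⟨z, hz, he⟩ => h2 (f.injective he ▸ hz)⟩
  · rintro ⟨⟨x, h1, rfl⟩, h2⟩
    exact ⟨x, ⟨h1, fun h => h2 ⟨x, h, rfl⟩⟩, rfl⟩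

theorem conn2_iff {A : Finset V'} : Conn2 (G.comap f) A ↔ Conn2 G (A.map f) := by
  constructor
  · intro h z hz
    obtain ⟨z', hz', rfl⟩ := Finset.mem_map.1 hz
    rw [← erase_map, ← conn1_iff]
    exact h z' hz'
  · intro h z hz
    rw [conn1_iff, erase_map]
    exact h _ (mem_map_iff.2 hz)

theorem dU_map [DecidableRel G.Adj] [DecidableRel (G.comap f).Adj] (A : Finset V') (x : V') :
    dU (G.comap f) A x = dU G (A.map f) (f x) := by
  unfold dU
  rw [← Finset.card_map f]
  congr 1
  ext y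
  rw [Finset.mem_map, Finset.mem_filter]
  constructor
  · rintro ⟨z, hz, rfl⟩
    exact ⟨mem_map_iff.2 (Finset.mem_filter.1 hz).1, (Finset.mem_filter.1 hz).2⟩
  · rintro ⟨hy, hadj⟩
    obtain ⟨z, hz, rfl⟩ := Finset.mem_map.1 hy
    exact ⟨z, Finset.mem_filter.2 ⟨hz, hadj⟩, rfl⟩

theorem indep_iff {A : Finset V'} :
    (G.comap f).IsIndepSet (A : Set V') ↔ G.IsIndepSet ((A.map f : Finset V) : Set V) := by
  constructor
  · intro h x hx y hy hxy
    obtain ⟨x', hx', rfl⟩ := Finset.mem_map.1 (Finset.mem_coe.1 hx)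
    obtain ⟨y', hy', rfl⟩ := Finset.mem_map.1 (Finset.mem_coe.1 hy)
    exact h hx' hy' (fun h => hxy (by rw [h]))
  · intro h x hx y hy hxy
    exact h (Finset.mem_coe.2 (mem_map_iff.2 hx)) (Finset.mem_coe.2 (mem_map_iff.2 hy))
      (fun h => hxy (f.injective h))

/-- a subset of an image is an image -/
theorem sub_map {A : Finset V'} {B : Finset V} (h : B ⊆ A.map f) : ∃ B' ⊆ A, B'.map f = B := by
  refine ⟨A.filter (fun x => f x ∈ B), Finset.filter_subset _ _, ?_⟩
  ext y
  rw [Finset.mem_map]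
  constructor
  · rintro ⟨x, hx, rfl⟩
    exact (Finset.mem_filter.1 hx).2
  · intro hy
    obtain ⟨x, hx, rfl⟩ := Finset.mem_map.1 (h hy)
    exact ⟨x, Finset.mem_filter.2 ⟨hx, hy⟩, rfl⟩

theorem map_subset_iff {A B : Finset V'} : A.map f ⊆ B.map f ↔ A ⊆ B :=
  Finset.map_subset_map

theorem covW_iff {A B : Finset V'} {k : ℕ} :
    CovW (G.comap f) A B k ↔ CovW G (A.map f) (B.map f) k := by
  constructor
  · rintro ⟨L, h1, h2, h3, h4⟩
    refine ⟨L.map (fun l => l.map f), by simpa using h1, fam_iff.1 h2, ?_, ?_⟩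
    · rw [← List.map_flatten, mem_all]
      exact h3
    · intro x hx
      rw [← sdiff_map] at hx
      obtain ⟨y, hy, rfl⟩ := Finset.mem_map.1 hx
      rw [← List.map_flatten]
      exact List.mem_map.2 ⟨y, h4 y hy, rfl⟩
  · rintro ⟨L, h1, h2, h3, h4⟩
    have key : ∀ (L : List (List V)), (∀ x ∈ L.flatten, x ∈ A.map f) →
        ∃ L' : List (List V'), L'.map (fun l => l.map f) = L := by
      intro L
      induction L with
      | nil => intro _; exact ⟨[], rfl⟩
      | cons l L ih =>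
        intro h
        obtain ⟨l', rfl, _⟩ := lift_list (A := A) (f := f) (q := l)
          (fun z hz => h z (by simp [hz]))
        obtain ⟨L', hL'⟩ := ih (fun z hz => h z (by
          rw [List.flatten_cons]
          exact List.mem_append_right _ hz))
        exact ⟨l' :: L', by simp [← hL']⟩
    obtain ⟨L', rfl⟩ := key L h3
    refine ⟨L', by simpa using h1, fam_iff.2 h2, ?_, ?_⟩
    · rw [← List.map_flatten, mem_all] at h3
      exact h3
    · intro x hx
      have := h4 (f x) (by rw [← sdiff_map]; exact mem_map_iff.2 hx)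
      rw [← List.map_flatten] at this
      obtain ⟨y, hy, he⟩ := List.mem_map.1 this
      exact f.injective he ▸ hy

section deg

variable [DecidableRel G.Adj] [DecidableRel (G.comap f).Adj]

theorem cw_iff {A B : Finset V'} : CW (G.comap f) A B ↔ CW G (A.map f) (B.map f) := by
  constructor
  · intro h I hI hind v hv
    rw [← sdiff_map] at hI
    obtain ⟨J, hJ, rfl⟩ := sub_map hI
    obtain ⟨w, hw, rfl⟩ := Finset.mem_map.1 hv
    have := h J hJ (indep_iff.2 hind) w hw
    rw [dU_map] at this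
    simpa using this
  · intro h I hI hind v hv
    have := h (I.map f) (by rw [← sdiff_map, map_subset_iff]; exact hI) (indep_iff.1 hind) (f v)
      (mem_map_iff.2 hv)
    rw [dU_map]
    simpa using this

theorem cwb_iff {A B : Finset V'} {b : ℕ} :
    CWb (G.comap f) A B b ↔ CWb G (A.map f) (B.map f) b := by
  constructor
  · intro h I hI hind v hv
    rw [← sdiff_map] at hI
    obtain ⟨J, hJ, rfl⟩ := sub_map hI
    obtain ⟨w, hw, rfl⟩ := Finset.mem_map.1 hv
    have := h J hJ (indep_iff.2 hind) w hw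
    rw [dU_map] at this
    simpa using this
  · intro h I hI hind v hv
    have := h (I.map f) (by rw [← sdiff_map, map_subset_iff]; exact hI) (indep_iff.1 hind) (f v)
      (mem_map_iff.2 hv)
    rw [dU_map]
    simpa using this

theorem cwg_iff {A B : Finset V'} {b : ℕ} :
    H72N.CWg (G.comap f) A B b ↔ H72N.CWg G (A.map f) (B.map f) b := by
  constructor
  · intro h I hI hind v hv hc
    rw [← sdiff_map] at hI
    obtain ⟨J, hJ, rfl⟩ := sub_map hI
    obtain ⟨w, hw, rfl⟩ := Finset.mem_map.1 hv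
    have := h J hJ (indep_iff.2 hind) w hw (by rw [conn1_iff, erase_map]; exact hc)
    rw [dU_map] at this
    simpa using this
  · intro h I hI hind v hv hc
    have := h (I.map f) (by rw [← sdiff_map, map_subset_iff]; exact hI) (indep_iff.1 hind) (f v)
      (mem_map_iff.2 hv) (by rw [← erase_map, ← conn1_iff]; exact hc)
    rw [dU_map]
    simpa using this

theorem sum_map (A I : Finset V') :
    ∑ v ∈ I, dU (G.comap f) A v = ∑ v ∈ I.map f, dU G (A.map f) v := by
  rw [Finset.sum_map]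
  exact Finset.sum_congr rfl (fun v _ => dU_map A v)

theorem pwk_iff {K : ℕ} {A B : Finset V'} :
    PWK K (G.comap f) A B ↔ PWK K G (A.map f) (B.map f) := by
  constructor
  · intro h k hkK hk
    obtain ⟨I, h1, h2, h3, h4⟩ := h k hkK (fun hc => hk (covW_iff.1 hc))
    refine ⟨I.map f, by rw [← sdiff_map, map_subset_iff]; exact h1, indep_iff.1 h2, by simpa using h3, ?_⟩
    rw [← sum_map]
    simpa using h4
  · intro h k hkK hk
    obtain ⟨I, h1, h2, h3, h4⟩ := h k hkK (fun hc => hk (covW_iff.2 hc))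
    rw [← sdiff_map] at h1
    obtain ⟨J, hJ, rfl⟩ := sub_map h1
    refine ⟨J, hJ, indep_iff.2 h2, by simpa using h3, ?_⟩
    rw [sum_map]
    simpa using h4

theorem pw_iff {A B : Finset V'} : PW (G.comap f) A B ↔ PW G (A.map f) (B.map f) := by
  rw [PW_iff, PW_iff]
  exact forall_congr' (fun K => pwk_iff)

end deg

theorem good_iff {A B : Finset V'} {x : V'} :
    Good (G.comap f) A B x ↔ Good G (A.map f) (B.map f) (f x) := by
  constructor
  · rintro ⟨h1, h2, h3⟩
    refine ⟨mem_map_iff.2 h1, fun h => h2 (mem_map_iff.1 h), ?_⟩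
    rw [← erase_map, ← conn1_iff]
    exact h3
  · rintro ⟨h1, h2, h3⟩
    refine ⟨mem_map_iff.1 h1, fun h => h2 (mem_map_iff.2 h), ?_⟩
    rw [conn1_iff, erase_map]
    exact h3

theorem sepV_iff {A : Finset V'} {w v u : V'} :
    SepV (G.comap f) A w v u ↔ SepV G (A.map f) (f w) (f v) (f u) := by
  unfold SepV
  rw [reach_iff, erase_map]
  exact or_congr ⟨fun h => by rw [h], fun h => f.injective h⟩ Iff.rfl

theorem near_iff {A B : Finset V'} {x x' : V'} :
    Near (G.comap f) A B x x' ↔ Near G (A.map f) (B.map f) (f x) (f x') := by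
  constructor
  · intro h hne v hv
    obtain ⟨v', hv', rfl⟩ := Finset.mem_map.1 hv.mem
    obtain ⟨w, h1, h2, h3, h4⟩ := h (fun he => hne (by rw [he])) v' (good_iff.2 hv)
    exact ⟨f w, mem_map_iff.2 h1, fun he => h2 (f.injective he), sepV_iff.1 h3, sepV_iff.1 h4⟩
  · intro h hne v hv
    obtain ⟨w, h1, h2, h3, h4⟩ := h (fun he => hne (f.injective he)) (f v) (good_iff.1 hv)
    obtain ⟨w', hw', rfl⟩ := Finset.mem_map.1 h1
    exact ⟨w', hw', fun he => h2 (by rw [he]), sepV_iff.2 h3, sepV_iff.2 h4⟩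

theorem bp_iff [DecidableRel G.Adj] [DecidableRel (G.comap f).Adj] {K : ℕ} {A B : Finset V'} :
    BP K (G.comap f) A B ↔ BP K G (A.map f) (B.map f) := by
  constructor
  · intro h k hkK hk
    obtain ⟨I, h1, h2, h3, h4⟩ := h k hkK (fun hc => hk (covW_iff.1 hc))
    refine ⟨I.map f, ?_, indep_iff.1 h2, by simpa using h3, ?_⟩
    · intro v hv
      obtain ⟨w, hw, rfl⟩ := Finset.mem_map.1 hv
      exact good_iff.1 (h1 w hw)
    · intro N hN hnear
      obtain ⟨M, hM, rfl⟩ := sub_map hN
      have := h4 M hM (fun x hx y hy => near_iff.2 (hnear _ (mem_map_iff.2 hx) _ (mem_map_iff.2 hy)))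
      rw [sum_map] at this
      simpa using this
  · intro h k hkK hk
    obtain ⟨I, h1, h2, h3, h4⟩ := h k hkK (fun hc => hk (covW_iff.2 hc))
    have hIA : I ⊆ A.map f := fun v hv => (h1 v hv).mem
    obtain ⟨J, hJ, rfl⟩ := sub_map hIA
    refine ⟨J, fun v hv => good_iff.2 (h1 _ (mem_map_iff.2 hv)), indep_iff.2 h2, by simpa using h3, ?_⟩
    intro N hN hnear
    have := h4 (N.map f) (map_subset_iff.2 hN) (by
      intro x hx y hy
      obtain ⟨x', hx', rfl⟩ := Finset.mem_map.1 hx
      obtain ⟨y', hy', rfl⟩ := Finset.mem_map.1 hy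
      exact near_iff.1 (hnear x' hx' y' hy'))
    rw [sum_map]
    simpa using this

/-- paths with at least `n` vertices inside `A` -/
theorem path_iff {A : Finset V'} {a b : V'} {n : ℕ} :
    (∃ Q, Seg (G.comap f) Q a b ∧ Q.Nodup ∧ (∀ z ∈ Q, z ∈ A) ∧ n ≤ Q.length) ↔
      ∃ Q, Seg G Q (f a) (f b) ∧ Q.Nodup ∧ (∀ z ∈ Q, z ∈ A.map f) ∧ n ≤ Q.length := by
  constructor
  · rintro ⟨Q, h1, h2, h3, h4⟩
    exact ⟨Q.map f, seg_iff.1 h1, h2.map f.injective, mem_all.2 h3, by simpa using h4⟩
  · rintro ⟨Q, h1, h2, h3, h4⟩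
    obtain ⟨Q', rfl, hQ'⟩ := lift_list h3
    exact ⟨Q', seg_iff.2 h1, List.Nodup.of_map _ h2, hQ', by simpa using h4⟩

end Pool.Agent.H20S
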